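import Pool.Agent.OligoTerm.Ops

/-!
# MP_7ddfd8_al: closed oligomorphic algebras without terminator terms

There is a closed oligomorphic algebra which satisfies a nontrivial set of linear identities
but has no terminator terms (negative answer to Q1). The identities are
`f_i (y, x, w, z, z, w, z) = f_{i+1} (x, y, z, w, x, x, y)`, `i` modulo `9`.

The algebra: the class of all structures with a ternary relation `T`, a unary relation `G` and a
binary relation `S` such that `T a b c` and `S b c` imply `G a`, `T a u v` and `T b u v` imply
`S a b`, and never `T w a b`, `G a` and `G b`, has the amalgamation property; let `lim` be its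
generic countable structure. The operations are all operations which preserve `T` and whose
preimage of `T` lies in the union of the coordinatewise preimages of `T`.
-/

namespace Pool.Agent.Results.MP_7ddfd8_al.NoTerminatorTerms

open Pool.Agent.OligoTerm

/-- There is a closed oligomorphic algebra which satisfies the nine linear identities
`f_i (y, x, w, z, z, w, z) = f_{i+1} (x, y, z, w, x, x, y)`, `i` modulo `9`, which form a
nontrivial set, but has no terminator terms. -/
theorem result : ∃ 𝔸 : Alg, 𝔸.ClosedOligomorphic ∧
    (NontrivialSet ids ∧ 𝔸.Satisfies ids) ∧ ¬ 𝔸.HasTerminatorTerms :=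
  ⟨alg, ⟨inferInstanceAs (Countable ℕ), alg_closed, alg_oligomorphic⟩,
    ⟨nontrivial, satisfies⟩, no_terminator⟩

end Pool.Agent.Results.MP_7ddfd8_al.NoTerminatorTerms
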